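import Pool.Agent.W2helper66.XP.Stm

set_option autoImplicit false

/-!
# Piece PATHB of project XP: the second Hamiltonian path
-/

namespace Pool.Agent.W2helper2.XP

open Pool.Agent.W2helper66.XP

/-- the sequence `n, n - 1, …, u + 1, 1, 2, …, u` -/
def sq (n u i : ℕ) : ℕ := if i < n - u then n - i else i - (n - u) + 1

lemma cast_inj' {n a b : ℕ} (ha : 1 ≤ a) (ha' : a ≤ n) (hb : 1 ≤ b) (hb' : b ≤ n)
    (h : (a : ZMod n) = (b : ZMod n)) : a = b := by
  rw [ZMod.natCast_eq_natCast_iff] at h
  rcases le_total a b with hab | hab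
  · have h1 := (Nat.modEq_iff_dvd' hab).1 h
    rcases Nat.eq_zero_or_pos (b - a) with h0 | h0
    · omega
    · have := Nat.le_of_dvd h0 h1
      omega
  · have h1 := (Nat.modEq_iff_dvd' hab).1 h.symm
    rcases Nat.eq_zero_or_pos (a - b) with h0 | h0
    · omega
    · have := Nat.le_of_dvd h0 h1
      omega

lemma sq_range {n u i : ℕ} (h2 : u + 2 ≤ n) (hi : i < n) : 1 ≤ sq n u i ∧ sq n u i ≤ n := by
  unfold sq
  split_ifs <;> omega

lemma sq_inj {n u i j : ℕ} (h2 : u + 2 ≤ n) (hi : i < n) (hj : j < n)
    (h : sq n u i = sq n u j) : i = j := by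
  unfold sq at h
  split_ifs at h <;> omega

theorem pathb : PATHB := by
  intro n u hu h2
  have hn0 : ∀ a : ℕ, 1 ≤ a → a < n → (a : ZMod n) ≠ 0 := by
    intro a ha ha' h
    rw [ZMod.natCast_eq_zero_iff] at h
    have := Nat.le_of_dvd (by omega) h
    omega
  have hnu : ∀ a : ℕ, 1 ≤ a → a ≤ n → a ≠ u → (a : ZMod n) ≠ (u : ZMod n) := by
    intro a ha ha' hau h
    exact hau (cast_inj' ha ha' (by omega) (by omega) h)
  refine ⟨fun i => (sq n u i : ZMod n), ?_, ?_, ?_, ?_⟩
  · intro i j hi hj h
    have h1 := sq_range h2 hi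
    have h3 := sq_range h2 hj
    exact sq_inj h2 hi hj (cast_inj' h1.1 h1.2 h3.1 h3.2 h)
  · show ((sq n u 0 : ℕ) : ZMod n) = 0
    have : sq n u 0 = n := by
      unfold sq
      rw [if_pos (by omega)]
      omega
    rw [this, ZMod.natCast_self]
  · show ((sq n u (n - 1) : ℕ) : ZMod n) = (u : ZMod n)
    have : sq n u (n - 1) = u := by
      unfold sq
      rw [if_neg (by omega)]
      omega
    rw [this]
  · intro i hi
    show EdgeB n u ((sq n u i : ℕ) : ZMod n) ((sq n u (i + 1) : ℕ) : ZMod n) ∨
      EdgeB n u ((sq n u (i + 1) : ℕ) : ZMod n) ((sq n u i : ℕ) : ZMod n)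
    rcases lt_trichotomy (i + 1) (n - u) with h | h | h
    · right
      left
      have e1 : sq n u i = sq n u (i + 1) + 1 := by
        unfold sq
        rw [if_pos (by omega), if_pos h]
        omega
      have e2 : sq n u (i + 1) = n - (i + 1) := by
        unfold sq
        rw [if_pos h]
      refine ⟨?_, ?_, ?_⟩
      · rw [e1]
        push_cast
        ring
      · rw [e2]
        exact hn0 _ (by omega) (by omega)
      · rw [e2]
        exact hnu _ (by omega) (by omega) (by omega)
    · right
      right
      have e1 : sq n u i = u + 1 := by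
        unfold sq
        rw [if_pos (by omega)]
        omega
      have e2 : sq n u (i + 1) = 1 := by
        unfold sq
        rw [if_neg (by omega)]
        omega
      rw [e1, e2]
      push_cast
      exact ⟨rfl, rfl⟩
    · left
      left
      have e1 : sq n u (i + 1) = sq n u i + 1 := by
        unfold sq
        rw [if_neg (by omega), if_neg (by omega)]
        omega
      have e2 : sq n u i = i - (n - u) + 1 := by
        unfold sq
        rw [if_neg (by omega)]
      refine ⟨?_, ?_, ?_⟩
      · rw [e1]
        push_cast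
        ring
      · rw [e2]
        exact hn0 _ (by omega) (by omega)
      · rw [e2]
        exact hnu _ (by omega) (by omega) (by omega)

end Pool.Agent.W2helper2.XP
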